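import Pool.Agent.H21.Leonard

namespace Pool.Agent.Results.MP_105763_al.ZeroInt

open Pool.Agent.H21.Leonard Module

theorem result (K V : Type) [Field K] [AddCommGroup V] [Module K V] [FiniteDimensional K V]
    (d : ℕ) (hd : finrank K V = d + 1) (A A' : End K V) (E E' : Fin (d + 1) → End K V)
    (h : IsLeonardSystem A A' E E') (r : ℕ) (hr : r ≤ d) (L : Finset (Fin (d + 1)))
    (hL : L.card ≤ d - r) :
    (⨆ i : Fin (d + 1), ⨆ _ : (i : ℕ) ≤ r, LinearMap.range (E' i)) ⊓
      (⨆ j ∈ L, LinearMap.range (E j)) = ⊥ := by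
  obtain ⟨h1, h2, -, h4⟩ := h
  obtain ⟨θ, b, hθ, hA, hE⟩ := exists_basis hd h1
  obtain ⟨θ', b', -, -, hE'⟩ := exists_basis hd h2
  rw [eq_bot_iff]
  rintro x ⟨hx, hx'⟩
  refine zero_int b b' A θ hθ hA (hess_of b' hE' h4).1 r L (by omega) x ?_ ?_
  · intro i hi
    have : (⨆ i : Fin (d + 1), ⨆ _ : (i : ℕ) ≤ r, LinearMap.range (E' i))
        ≤ LinearMap.ker (b'.coord i) := by
      refine iSup₂_le fun k hk => ?_
      rintro _ ⟨y, rfl⟩
      have : k ≠ i := by rintro rfl; omega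
      simp [hE', this]
    exact this hx
  · intro j hj
    have : (⨆ j ∈ L, LinearMap.range (E j)) ≤ LinearMap.ker (b.coord j) := by
      refine iSup₂_le fun k hk => ?_
      rintro _ ⟨y, rfl⟩
      have : k ≠ j := by rintro rfl; exact hj hk
      simp [hE, this]
    exact this hx'

end Pool.Agent.Results.MP_105763_al.ZeroInt
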